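import Pool.Agent.R630.WTA.Final

/-!
# The exponential growth rate of ℕ-weighted tree automata exists (MP_7772c6_lc, Q1)
-/

set_option autoImplicit false

open Filter Topology

namespace Pool.Agent.Results.MP_7772c6_lc.GrowthRateExists

open Pool.Agent.R630.WTA

/-- Q1 holds. Let `𝒜` be an `ℕ`-weighted tree automaton over a finite ranked alphabet `(A, rank)`
whose growth function is at least `2 ^ (c n)` for some `c > 0` and all large `n` (in particular, let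
`𝒜` have exponential growth). Then there is a real `ρ > 1` such that `growth 𝒜 n ^ (1 / n)`
converges to `ρ`. Moreover `growth 𝒜 n ≤ K n ^ e ρ ^ n` for some constants `K`, `e` and all
`n ≥ 1`. -/
theorem result (A : Type) [Fintype A] (rank : A → ℕ) (𝒜 : Automaton A rank)
    (hexp : ∃ c₁ : ℝ, 0 < c₁ ∧ ∀ᶠ n : ℕ in atTop, (2 : ℝ) ^ (c₁ * n) ≤ growth 𝒜 n) :
    ∃ ρ : ℝ, 1 < ρ ∧
      Tendsto (fun n : ℕ => (growth 𝒜 n : ℝ) ^ (1 / (n : ℝ))) atTop (𝓝 ρ) ∧
      ∃ (K : ℝ) (e : ℕ), ∀ n : ℕ, 1 ≤ n → (growth 𝒜 n : ℝ) ≤ K * (n : ℝ) ^ e * ρ ^ n :=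
  main 𝒜 hexp

end Pool.Agent.Results.MP_7772c6_lc.GrowthRateExists
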